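import Mathlib
import Pool.Agent.Lib.B92.Planar
import Pool.Agent.Lib.B92.Cases
import Pool.Agent.Lib.B92.KA5
import Pool.Agent.Lib.B92K.Fin

/-!
# MP_b92fc8_an : cubic systems with a fine focus of order five have no periodic orbits

For the system `(S)`: `x' = lam x + y + p(x, y)`, `y' = -x + lam y + q(x, y)` (`p`, `q` homogeneous
cubics): if the origin is a fine focus of order `5`, then there is no nonconstant periodic
solution; in particular there is no limit cycle.  The definitions are in
`Pool/Agent/Lib/B92/Planar.lean`.

Proof: the conditions for order five force a normal form with two parameters `kappa`, `l`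
(`Lib/B92/Rec`, `Coef`, `Red`); the quotient by the symmetry `z -> -z` lives on a cone (`Cone`);
closed orbits there are excluded by comparing the two halves `w > 0` and `w < 0`, in five cases
(`|kappa| < 1` with `eta > 0` or `eta < 0`, `kappa = 1` or `-1`, `kappa > 1`, `kappa < -1`),
`eta = 1 - kappa^2 - l^2`.
-/

set_option autoImplicit false

namespace Pool.Agent.Results.MP_b92fc8_an.OrderFive

open MvPolynomial B92

/-- **A cubic system `(S)` whose origin is a fine focus of order five has no periodic orbit.** -/
theorem result (lam : ℝ) (p q : MvPolynomial (Fin 2) ℝ) (hp : p.IsHomogeneous 3)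
    (hq : q.IsHomogeneous 3) (h5 : IsFineFocus lam p q 5) :
    ∀ G : Set (ℝ × ℝ), ¬ IsPeriodicOrbit lam p q G :=
  fun G => no_periodic_of_cases
    (fun _ _ hk hl he _ _ _ _ hs hP pU pY pw hneg hpos =>
      KA.no_orbit hk hl he hs hP pU pY pw hneg hpos)
    (fun _ _ hk hl => B92K.noOrbit_K hk hl)
    lam p q hp hq h5 G

end Pool.Agent.Results.MP_b92fc8_an.OrderFive
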